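import Mathlib

set_option autoImplicit false

namespace Pool.Agent.Results.MP_85199e_an.Yes

open Filter Topology Finset Complex

theorem rs (k : ℕ) : ∃ p : Bool → ℕ → ℂ, (∀ b n, ‖p b n‖ ≤ 1) ∧ ∀ z : ℂ, ‖z‖ = 1 →
    ‖∑ n ∈ range (2 ^ k), p true n * z ^ n‖ ^ 2 + ‖∑ n ∈ range (2 ^ k), p false n * z ^ n‖ ^ 2 =
      2 * 2 ^ k := by
  induction k with
  | zero => exact ⟨fun _ _ => 1, by simp, fun z _ => by norm_num⟩
  | succ k ih =>
    obtain ⟨p, h, e⟩ := ih
    refine ⟨fun b n => if n < 2 ^ k then p true n else (if b then 1 else -1) * p false (n - 2 ^ k),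
      fun b n => by dsimp only; split_ifs <;> simp [h], fun z c => ?_⟩
    have a : ∀ s : ℂ, ∑ n ∈ range (2 ^ (k + 1)), (if n < 2 ^ k then p true n else
        s * p false (n - 2 ^ k)) * z ^ n = ∑ n ∈ range (2 ^ k), p true n * z ^ n +
        s * (z ^ 2 ^ k * ∑ n ∈ range (2 ^ k), p false n * z ^ n) := fun s => by
      rw [pow_succ, mul_two, sum_range_add, mul_sum, mul_sum]
      congr 1
      · exact sum_congr rfl fun n m => by rw [if_pos (mem_range.mp m)]
      · exact sum_congr rfl fun n _ => by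
          rw [if_neg (by omega), Nat.add_sub_cancel_left]
          ring
    simp only [a]
    simp only [if_true, Bool.false_eq_true, if_false, one_mul, neg_mul, ← sub_eq_add_neg]
    rw [parallelogram_law_with_norm ℝ]
    simp only [norm_mul, norm_pow, c, one_pow, one_mul]
    rw [e z c]
    ring

theorem tri {A u : ℂ} (hu : ‖u‖ = 1) (hA : 1 ≤ ‖A‖) (a : |A.re| < 1 / 4)
    (b : |(u * A).im| < 1 / 4) (c : |(u ^ 2 * A).im| < 1 / 4) : False := by
  have e : (A * (u ^ 2 * A)).re = ((u * A) * (u * A)).re := by congr 1; ring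
  have n1 : ‖u * A‖ = ‖A‖ := by simp [hu]
  have n2 : ‖u ^ 2 * A‖ = ‖A‖ := by simp [hu]
  have s := Complex.sq_norm (u * A)
  have r1 := abs_re_le_norm (u ^ 2 * A)
  have r2 := abs_im_le_norm A
  rw [n2] at r1
  rw [n1, normSq_apply] at s
  generalize u * A = B at *
  generalize u ^ 2 * A = C at *
  rw [mul_re, mul_re] at e
  have f1 : A.re * C.re ≤ 1 / 4 * ‖A‖ := (le_abs_self _).trans (by
    rw [abs_mul]; exact mul_le_mul a.le r1 (abs_nonneg _) (by norm_num))
  have f2 : -(A.im * C.im) ≤ ‖A‖ * (1 / 4) := (neg_le_abs _).trans (by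
    rw [abs_mul]; exact mul_le_mul r2 c.le (abs_nonneg _) (norm_nonneg _))
  have f3 : B.im * B.im ≤ 1 / 4 * (1 / 4) := (le_abs_self _).trans (by
    rw [abs_mul]; exact mul_le_mul b.le b.le (abs_nonneg _) (by norm_num))
  nlinarith

theorem result : ∃ a b : ℕ → ℝ,
    (∀ x L : ℝ, ¬ Tendsto (fun N => ∑ n ∈ Icc 1 N, (a n * Real.cos (n * x) + b n * Real.sin (n * x)))
      atTop (𝓝 L)) ∧
    ∀ ε > 0, Summable fun n => |a n| ^ (2 + ε) + |b n| ^ (2 + ε : ℝ) := by
  choose p h e using rs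
  let w : ℕ → ℂ := fun j => if j % 3 = 0 then 1 else I
  let c : ℕ → ℂ := fun n => ((√(2 ^ (Nat.log 2 n - 3)) : ℝ) : ℂ)⁻¹ * (w (n / 2 ^ (Nat.log 2 n - 3)) *
    p (Nat.log 2 n - 3) (n / 2 ^ (Nat.log 2 n - 3) < 12) (n % 2 ^ (Nat.log 2 n - 3)))
  refine ⟨fun n => (c n).re, fun n => -(c n).im, fun x L t => ?_, fun ε ε0 => ?_⟩
  · let z := cexp (x * I)
    have z1 : ‖z‖ = 1 := norm_exp_ofReal_mul_I x
    let T := fun N => (∑ n ∈ range N, c n * z ^ n).re
    have t' : Tendsto T atTop (𝓝 ((c 0).re + L)) := by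
      rw [← tendsto_add_atTop_iff_nat 1]
      refine (t.const_add _).congr fun N => ?_
      simp only [T, re_sum]
      rw [range_eq_Ico, sum_eq_sum_Ico_succ_bot (by omega)]
      congr 1
      · simp
      · refine sum_congr rfl fun n _ => ?_
        rw [← exp_nat_mul, ← mul_assoc, ← ofReal_natCast, ← ofReal_mul, mul_re (c n),
          exp_ofReal_mul_I_re, exp_ofReal_mul_I_im]
        ring
    have s : ∀ j, 0 < j → Tendsto (fun k => T (j * 2 ^ k)) atTop (𝓝 ((c 0).re + L)) := fun j j0 =>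
      t'.comp (tendsto_atTop_mono (fun k => Nat.le_mul_of_pos_left _ j0)
        (tendsto_pow_atTop_atTop_of_one_lt one_lt_two))
    obtain ⟨k, d⟩ := ((eventually_all_finset (Ico 8 16)).mpr fun j m => (((s (j + 1) (by omega)).sub
      (s j (by have := mem_Ico.mp m; omega))).abs.eventually
      (gt_mem_nhds (a := 1 / 4) (by norm_num)))).exists
    have f : ∀ j ∈ Ico 8 16, |(w j * ((z ^ 2 ^ k) ^ j * (((√(2 ^ k) : ℝ) : ℂ)⁻¹ *
        ∑ n ∈ range (2 ^ k), p k (j < 12) n * z ^ n))).re| < 1 / 4 := fun j m => by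
      refine lt_of_eq_of_lt ?_ (d j m)
      simp only [T]
      rw [add_mul, one_mul, sum_range_add, add_re, add_sub_cancel_left, mul_sum, mul_sum, mul_sum]
      congr 2
      refine sum_congr rfl fun n a => ?_
      have m := mem_Ico.mp m
      have a := mem_range.mp a
      have g : Nat.log 2 (j * 2 ^ k + n) - 3 = k := by
        rw [Nat.log_eq_of_pow_le_of_lt_pow (m := k + 3) (by rw [pow_add]; nlinarith)
          (by rw [pow_succ, pow_add]; nlinarith), Nat.add_sub_cancel]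
      simp only [c, g]
      rw [add_comm, Nat.add_mul_div_right _ _ (by positivity), Nat.div_eq_of_lt a, zero_add,
        Nat.add_mul_mod_self_right, Nat.mod_eq_of_lt a]
      ring
    have u1 : ‖z ^ 2 ^ k‖ = 1 := by simp [z1]
    have q : ∀ (j : ℕ) (S : ℂ), 2 ^ k ≤ ‖S‖ ^ 2 →
        1 ≤ ‖(z ^ 2 ^ k) ^ j * (((√(2 ^ k) : ℝ) : ℂ)⁻¹ * S)‖ := fun j S a => by
      rw [norm_mul, norm_pow, u1, one_pow, one_mul, norm_mul, norm_inv, norm_real,
        Real.norm_of_nonneg (Real.sqrt_nonneg _), ← div_eq_inv_mul, one_le_div (by positivity)]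
      exact Real.sqrt_le_iff.mpr ⟨norm_nonneg _, a⟩
    generalize z ^ 2 ^ k = u at *
    by_cases r : 2 ^ k ≤ ‖∑ n ∈ range (2 ^ k), p k true n * z ^ n‖ ^ 2
    · refine tri u1 (q 9 _ r) (by simpa [w] using f 9 (by simp)) ?_ ?_
      · rw [← mul_assoc, ← pow_succ']; simpa [w, -mul_im, -mul_re, I_mul_re] using f 10 (by simp)
      · rw [← mul_assoc, ← pow_add]; simpa [w, -mul_im, -mul_re, I_mul_re] using f 11 (by simp)
    · refine tri u1 (q 12 (∑ n ∈ range (2 ^ k), p k false n * z ^ n) (by linarith [e k z z1])) (by simpa [w] using f 12 (by simp)) ?_ ?_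
      · rw [← mul_assoc, ← pow_succ']; simpa [w, -mul_im, -mul_re, I_mul_re] using f 13 (by simp)
      · rw [← mul_assoc, ← pow_add]; simpa [w, -mul_im, -mul_re, I_mul_re] using f 14 (by simp)
  have b : ∀ n : ℕ, 0 < n → ‖c n‖ ^ (2 + ε) ≤ 4 ^ (2 + ε) * (n : ℝ) ^ (-(1 + ε / 2)) := fun n n0 => by
    have a : (n : ℝ) ≤ 16 * 2 ^ (Nat.log 2 n - 3) := by
      have := (Nat.lt_pow_succ_log_self one_lt_two n).le.trans (Nat.pow_le_pow_right two_pos
        (show _ ≤ 4 + (Nat.log 2 n - 3) by omega))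
      rw [pow_add] at this
      exact_mod_cast this
    have : ‖c n‖ ≤ 4 * (n : ℝ) ^ (-(1 / 2) : ℝ) := by
      have w1 : ∀ j, ‖w j‖ = 1 := fun j => by simp only [w]; split_ifs <;> simp
      simp only [c]
      rw [norm_mul, norm_mul, w1, one_mul, norm_inv, norm_real,
        Real.norm_of_nonneg (Real.sqrt_nonneg _), Real.rpow_neg n.cast_nonneg, ← Real.sqrt_eq_rpow]
      refine (mul_le_of_le_one_right (by positivity) (h _ _ _)).trans ?_
      rw [← div_eq_mul_inv, inv_eq_one_div, div_le_div_iff₀ (by positivity) (by positivity), one_mul,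
        Real.sqrt_le_left (by positivity), mul_pow, Real.sq_sqrt (by positivity)]
      linarith
    refine (Real.rpow_le_rpow (norm_nonneg _) this (by positivity)).trans_eq ?_
    rw [Real.mul_rpow (by norm_num) (by positivity), ← Real.rpow_mul n.cast_nonneg]
    congr 2
    ring
  have s : Summable fun n => ‖c n‖ ^ (2 + ε) := (summable_nat_add_iff 1).mp
    ((((summable_nat_add_iff 1).mpr (Real.summable_nat_rpow.mpr (by linarith))).mul_left
    _).of_nonneg_of_le (fun _ => by positivity) fun n => b _ n.succ_pos)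
  exact (s.add s).of_nonneg_of_le (fun _ => by positivity) fun n => add_le_add
    (Real.rpow_le_rpow (abs_nonneg _) (abs_re_le_norm _) (by positivity))
    (Real.rpow_le_rpow (abs_nonneg _) ((abs_neg _).trans_le (abs_im_le_norm _)) (by positivity))

end Pool.Agent.Results.MP_85199e_an.Yes
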